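import Mathlib

/-!
A density argument: local hits at all large scales give hits at infinitely many scales for almost
every dilation.
-/

set_option autoImplicit false

open MeasureTheory Filter Topology Set Real

namespace Pool.Agent.R509.MA

theorem ae_frequently {Hit : ℝ → ℕ → ℝ → Prop}
    (hmono : ∀ (η η' : ℝ) (k : ℕ) (α : ℝ), 0 ≤ η → η ≤ η' → Hit η' k α → Hit η k α) {a b : ℝ}
    (ha : 0 < a) (hb : 0 < b)
    (hloc : ∀ x r : ℝ, 0 < x → 0 < r → r ≤ x / 2 → ∃ k₀ : ℕ, ∀ k : ℕ, k₀ ≤ k → ∃ V : Set ℝ,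
      MeasurableSet V ∧ V ⊆ Metric.closedBall x r ∧ (∀ α ∈ V, Hit (a / x) k α) ∧
        ENNReal.ofReal (b / (4 + x) * r) ≤ volume V) :
    ∀ᵐ α : ℝ, 0 < α → ∃ η : ℝ, 0 < η ∧ ∃ᶠ k in atTop, Hit η k α := by
  have key : ∀ M N : ℕ, ∀ᵐ α : ℝ, ¬ (0 < α ∧ α ≤ M ∧ ∀ k : ℕ, N ≤ k → ¬ Hit (a / (M + 1)) k α) := by
    intro M N
    set B : Set ℝ := {α : ℝ | 0 < α ∧ α ≤ M ∧ ∀ k : ℕ, N ≤ k → ¬ Hit (a / (M + 1)) k α} with hB
    rw [ae_iff]
    have e : {α : ℝ | ¬ ¬ (0 < α ∧ α ≤ M ∧ ∀ k : ℕ, N ≤ k → ¬ Hit (a / (M + 1)) k α)} = B := by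
      ext α; simp [hB]
    rw [e]
    by_contra hne
    have hBsub : B ⊆ Ioc (0 : ℝ) M := fun α hα => ⟨hα.1, hα.2.1⟩
    have hd := Besicovitch.ae_tendsto_measure_inter_div (volume : Measure ℝ) B
    have hpos : ∀ᵐ x ∂(volume.restrict B), x ∈ Ioc (0 : ℝ) M := by
      have h1 : ∀ᵐ x ∂(volume.restrict (Ioc (0 : ℝ) M)), x ∈ Ioc (0 : ℝ) M :=
        ae_restrict_mem measurableSet_Ioc
      exact ae_mono (Measure.restrict_mono hBsub le_rfl) h1
    have hex : ∃ x : ℝ, x ∈ Ioc (0 : ℝ) M ∧ Tendsto (fun r => volume (B ∩ Metric.closedBall x r) /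
        volume (Metric.closedBall x r)) (𝓝[>] 0) (𝓝 1) := by
      have h2 := hpos.and hd
      have : (ae (volume.restrict B)).NeBot := by
        rw [ae_neBot]
        intro h0
        exact hne (by simpa using congrArg (fun μ : Measure ℝ => μ univ) h0)
      exact h2.exists
    obtain ⟨x, ⟨hx0, hxM⟩, hlim⟩ := hex
    set k : ℝ := b / (4 + x) with hk
    have hk0 : 0 < k := by positivity
    have hle : ∀ᶠ r in 𝓝[>] (0 : ℝ), volume (B ∩ Metric.closedBall x r) /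
        volume (Metric.closedBall x r) ≤ ENNReal.ofReal (1 - k / 2) := by
      have hev : ∀ᶠ r in 𝓝[>] (0 : ℝ), r ≤ x / 2 := by
        filter_upwards [Ioc_mem_nhdsGT (show (0 : ℝ) < x / 2 by linarith)] with r hr
        exact hr.2
      filter_upwards [hev, self_mem_nhdsWithin] with r hr1 hr0
      have hr0 : 0 < r := hr0
      obtain ⟨k₀, hk₀⟩ := hloc x r hx0 hr0 hr1
      obtain ⟨V, hVm, hVs, hVU, hVv⟩ := hk₀ (max N k₀) (le_max_right _ _)
      have hsub : B ∩ Metric.closedBall x r ⊆ Metric.closedBall x r \ V := by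
        rintro α ⟨h1, h2⟩
        refine ⟨h2, fun h3 => h1.2.2 _ (le_max_left N k₀) ?_⟩
        refine hmono _ _ _ _ (by positivity) ?_ (hVU α h3)
        gcongr
        linarith
      have hvb : volume (Metric.closedBall x r) = ENNReal.ofReal (2 * r) := Real.volume_closedBall x r
      have h4 : volume (B ∩ Metric.closedBall x r) ≤ ENNReal.ofReal (2 * r - k * r) := by
        refine (measure_mono hsub).trans ?_
        rw [measure_sdiff hVs hVm.nullMeasurableSet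
          (ne_top_of_le_ne_top (by rw [hvb]; exact ENNReal.ofReal_ne_top) (measure_mono hVs)),
          hvb, ENNReal.ofReal_sub _ (by positivity)]
        exact tsub_le_tsub_left hVv _
      rw [hvb]
      refine ENNReal.div_le_of_le_mul ?_
      refine h4.trans ?_
      rw [← ENNReal.ofReal_mul' (by positivity)]
      apply ENNReal.ofReal_le_ofReal
      apply le_of_eq
      ring
    have h5 : (1 : ENNReal) ≤ ENNReal.ofReal (1 - k / 2) := le_of_tendsto hlim hle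
    have h6 : ENNReal.ofReal (1 - k / 2) < 1 := by
      rw [← ENNReal.ofReal_one]
      exact (ENNReal.ofReal_lt_ofReal_iff one_pos).2 (by linarith)
    exact absurd h5 (not_le.2 h6)
  have key2 : ∀ᵐ α : ℝ, ∀ M N : ℕ,
      ¬ (0 < α ∧ α ≤ M ∧ ∀ k : ℕ, N ≤ k → ¬ Hit (a / (M + 1)) k α) := by
    rw [ae_all_iff]; intro M; rw [ae_all_iff]; intro N; exact key M N
  filter_upwards [key2] with α hα hα0
  refine ⟨a / ((⌈α⌉₊ : ℕ) + 1), by positivity, ?_⟩
  rw [frequently_atTop]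
  intro N
  have h1 := hα ⌈α⌉₊ N
  push Not at h1
  obtain ⟨k, hk, h2⟩ := h1 hα0 (Nat.le_ceil α)
  exact ⟨k, hk, h2⟩

end Pool.Agent.R509.MA
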