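import Mathlib
import Pool.Agent.R306.Dil

/-!
Weighted hits of windows by dilations of a thick set.
-/

set_option autoImplicit false

open MeasureTheory Filter Topology Set Real

namespace Pool.Agent.R509.MA

/-- separated points in an interval -/
lemma sep_card (F : Finset ℝ) {u v : ℝ} (huv : u ≤ v) (h : ∀ l ∈ F, u ≤ l ∧ l ≤ v)
    (hs : ∀ l ∈ F, ∀ l' ∈ F, l ≠ l' → 1 ≤ |l - l'|) : (F.card : ℝ) ≤ v - u + 1 := by
  have h1 : F.card ≤ (Finset.range (⌊v - u⌋₊ + 1)).card := by
    refine Finset.card_le_card_of_injOn (fun l => ⌊l - u⌋₊) ?_ ?_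
    · intro l hl
      obtain ⟨h2, h3⟩ := h l hl
      simp only [Finset.coe_range, mem_Iio]
      have : ⌊l - u⌋₊ ≤ ⌊v - u⌋₊ := Nat.floor_mono (by linarith)
      omega
    · intro l hl l' hl' he
      by_contra hne
      have h4 := hs l hl l' hl' hne
      have he' : ⌊l - u⌋₊ = ⌊l' - u⌋₊ := he
      have a1 := Nat.floor_le (show 0 ≤ l - u by linarith [(h l hl).1])
      have a2 := Nat.lt_floor_add_one (l - u)
      have b1 := Nat.floor_le (show 0 ≤ l' - u by linarith [(h l' hl').1])
      have b2 := Nat.lt_floor_add_one (l' - u)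
      rw [he'] at a1 a2
      have : |l - l'| < 1 := by
        rw [abs_lt]; constructor <;> linarith
      linarith
  rw [Finset.card_range] at h1
  have h2 : (F.card : ℝ) ≤ (⌊v - u⌋₊ : ℝ) + 1 := by exact_mod_cast h1
  have h3 := Nat.floor_le (show 0 ≤ v - u by linarith)
  linarith

/-- one window -/
lemma one_window {Λ : Set ℝ} {c : ℝ} (hc : 0 < c) (hΛ : Pool.Agent.R306.ThickWith c Λ) (β : ℝ)
    {x r : ℝ} (hx0 : 0 < x) (hr : 0 < r) (hrx : r ≤ x / 2) {δ : ℝ} (hδ : 0 < δ) :
    ∃ Y : ℝ, ∀ T : ℝ, Y ≤ T → ∃ S : Finset ℝ, (∀ l ∈ S, l ∈ Λ ∧ 0 < l) ∧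
      (∀ l ∈ S, ∀ α : ℝ, |α * l + β - T| ≤ 1 → α ∈ Metric.closedBall x r) ∧
      ∀ G : Set ℝ, ENNReal.ofReal δ ≤ volume G → 
        ENNReal.ofReal (c * δ / (2 * x) * r) ≤ ∑ l ∈ S, volume {α : ℝ | α * l + β ∈ G} := by
  set p : ℝ := x - r with hp
  set q : ℝ := x + r with hq
  have hp0 : 0 < p := by rw [hp]; linarith
  have hpx : p ≤ x := by rw [hp]; linarith
  have hq0 : 0 < q := by rw [hq]; linarith
  set s : ℝ := r / p with hs
  have hs0 : 0 < s := div_pos hr hp0
  have hs1 : s ≤ 1 := by rw [hs, div_le_one hp0]; rw [hp]; linarith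
  obtain ⟨x₀, hx₀⟩ := hΛ s hs0
  have hqs : (1 + s) * p < q := by
    rw [hs, add_mul, div_mul_cancel₀ _ hp0.ne', hp, hq]; linarith
  obtain ⟨M, hM⟩ : ∃ M : ℝ, M = ((1 + s) * p * 1 + q * 1) / (q - (1 + s) * p) := ⟨_, rfl⟩
  have hqq : 0 < q - (1 + s) * p := by linarith
  refine ⟨max (M + β) (max (q * x₀ + β) (β + 1 + 1)), fun T hT => ?_⟩
  have hT1 : M + β ≤ T := (le_max_left _ _).trans hT
  have hT2 : q * x₀ + β ≤ T := ((le_max_left _ _).trans (le_max_right _ _)).trans hT
  have hT3 : β + 1 + 1 ≤ T := ((le_max_right _ _).trans (le_max_right _ _)).trans hT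
  set A : ℝ := T - β - 1 with hA
  set B : ℝ := T - β + 1 with hB
  have hA0 : 0 < A := by rw [hA]; linarith
  have hB0 : 0 < B := by rw [hB]; linarith
  have hkey : (1 + s) * p * B ≤ q * A := by
    have h1 : M ≤ T - β := by linarith
    rw [hM, div_le_iff₀ hqq] at h1
    rw [hA, hB]
    nlinarith
  set y : ℝ := B / q with hy
  have hy0 : 0 < y := div_pos hB0 hq0
  have hyx : x₀ ≤ y := by
    rw [hy, le_div_iff₀ hq0, hB]; nlinarith
  have hyA : (1 + s) * y ≤ A / p := by
    rw [hy, le_div_iff₀ hp0, ← mul_div_assoc, div_mul_eq_mul_div, div_le_iff₀ hq0]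
    nlinarith
  obtain ⟨S, hS1, hS2, hS3⟩ := hx₀ y hyx
  have hl : ∀ l ∈ S, 0 < l ∧ y ≤ l ∧ l ≤ A / p := fun l hl =>
    ⟨hy0.trans_le (hS1 l hl).2.1, (hS1 l hl).2.1, (hS1 l hl).2.2.trans hyA⟩
  refine ⟨S, fun l hlS => ⟨(hS1 l hlS).1, (hl l hlS).1⟩, ?_, ?_⟩
  · intro l hlS α hα
    have hα' := abs_le.1 hα
    have h1 : A ≤ α * l := by rw [hA]; linarith
    have h2 : α * l ≤ B := by rw [hB]; linarith
    obtain ⟨l0, l1, l2⟩ := hl l hlS
    rw [Real.closedBall_eq_Icc]
    constructor
    · change p ≤ α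
      rw [le_div_iff₀ hp0] at l2
      by_contra hcon
      push Not at hcon
      have h5 : α * l < p * l := mul_lt_mul_of_pos_right hcon l0
      linarith
    · change α ≤ q
      rw [hy, div_le_iff₀ hq0] at l1
      by_contra hcon
      push Not at hcon
      have h5 : q * l < α * l := mul_lt_mul_of_pos_right hcon l0
      linarith
  · intro G hGv
    have h1 : ∀ l ∈ S, ENNReal.ofReal (δ / ((1 + s) * y)) ≤ volume {α : ℝ | α * l + β ∈ G} := by
      intro l hlS
      obtain ⟨l0, l1, l2⟩ := hl l hlS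
      have hl3 : l ≤ (1 + s) * y := (hS1 l hlS).2.2
      rw [Pool.Agent.R306.vol_pre l0]
      calc ENNReal.ofReal (δ / ((1 + s) * y)) ≤ ENNReal.ofReal (1 / l * δ) := by
            apply ENNReal.ofReal_le_ofReal
            rw [div_mul_eq_mul_div, one_mul]
            exact div_le_div_of_nonneg_left hδ.le l0 hl3
        _ = ENNReal.ofReal (1 / l) * ENNReal.ofReal δ := ENNReal.ofReal_mul (by positivity)
        _ ≤ _ := by gcongr
    calc ENNReal.ofReal (c * δ / (2 * x) * r)
        ≤ ENNReal.ofReal (S.card * (δ / ((1 + s) * y))) := by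
          apply ENNReal.ofReal_le_ofReal
          have h2 : c * s * y * (δ / ((1 + s) * y)) ≤ S.card * (δ / ((1 + s) * y)) :=
            mul_le_mul_of_nonneg_right hS3 (by positivity)
          refine le_trans ?_ h2
          have h3 : c * s * y * (δ / ((1 + s) * y)) = c * δ * (s / (1 + s)) := by
            field_simp
          rw [h3]
          have h4 : r / (2 * x) ≤ s / (1 + s) := by
            rw [hs, div_le_div_iff₀ (by positivity) (by positivity)]
            have e1 : r / p * (2 * x) = r * (2 * x) / p := by ring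
            rw [e1, le_div_iff₀ hp0]
            have e2 : r * (1 + r / p) * p = r * (p + r) := by field_simp
            rw [e2]
            have : p + r ≤ 2 * x := by rw [hp]; linarith
            nlinarith
          calc c * δ / (2 * x) * r = c * δ * (r / (2 * x)) := by ring
            _ ≤ c * δ * (s / (1 + s)) := by
                apply mul_le_mul_of_nonneg_left h4 (by positivity)
      _ = ∑ _l ∈ S, ENNReal.ofReal (δ / ((1 + s) * y)) := by
          rw [Finset.sum_const, nsmul_eq_mul, ENNReal.ofReal_mul (by positivity), ENNReal.ofReal_natCast]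
      _ ≤ ∑ l ∈ S, volume {α : ℝ | α * l + β ∈ G} := Finset.sum_le_sum h1

/-- few cells near a point -/
lemma near_card (J : Finset ℕ) (t : ℕ → ℝ) (ht : ∀ j ∈ J, (j : ℝ) ≤ t j ∧ t j ≤ j + 1) (y : ℝ) :
    (J.filter (fun j => |y - t j| ≤ 1)).card ≤ 4 := by
  have hsub : J.filter (fun j => |y - t j| ≤ 1) ⊆ Finset.Icc (⌊y⌋₊ - 2) (⌊y⌋₊ + 1) := by
    intro j hj
    rw [Finset.mem_filter] at hj
    obtain ⟨hjJ, hj1⟩ := hj
    obtain ⟨h1, h2⟩ := ht j hjJ
    have h3 := abs_le.1 hj1
    rw [Finset.mem_Icc]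
    constructor
    · have h5 : ⌊y⌋₊ ≤ j + 2 := by
        have : ⌊y⌋₊ ≤ ⌊((j + 2 : ℕ) : ℝ)⌋₊ := Nat.floor_mono (by push_cast; linarith)
        rwa [Nat.floor_natCast] at this
      omega
    · have h4 : (j : ℝ) ≤ y + 1 := by linarith
      have h5 : (j : ℝ) < (⌊y⌋₊ : ℝ) + 1 + 1 := by
        have := Nat.lt_floor_add_one y
        linarith
      have h6 : j < ⌊y⌋₊ + 1 + 1 := by exact_mod_cast h5
      omega
  refine (Finset.card_le_card hsub).trans ?_
  rw [Nat.card_Icc]
  omega

open Classical in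
/-- **weighted hits** -/
theorem hits {Λ : Set ℝ} {c : ℝ} (hc : 0 < c) (hΛ : Pool.Agent.R306.ThickWith c Λ)
    (hsep : ∀ l ∈ Λ, ∀ l' ∈ Λ, l ≠ l' → 1 ≤ |l - l'|) (β : ℝ)
    {x r : ℝ} (hx0 : 0 < x) (hr : 0 < r) (hrx : r ≤ x / 2) {δ : ℝ} (hδ : 0 < δ) (g : ℝ → ℝ)
    (hg : ∀ y, 0 ≤ g y) :
    ∃ Y : ℝ, ∀ (J : Finset ℕ) (t v : ℕ → ℝ) (G : ℕ → Set ℝ),
      (∀ j ∈ J, Y ≤ t j ∧ (j : ℝ) ≤ t j ∧ t j ≤ j + 1 ∧ 0 ≤ v j) →
      (∀ j ∈ J, MeasurableSet (G j) ∧ (∀ y ∈ G j, |y - t j| ≤ 1 ∧ v j ≤ g y) ∧
        ENNReal.ofReal δ ≤ volume (G j)) →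
      ∃ V : Set ℝ, MeasurableSet V ∧ V ⊆ Metric.closedBall x r ∧
        (∀ α ∈ V, ∃ F : Finset ℝ, (∀ l ∈ F, l ∈ Λ ∧ ∃ j ∈ J, |α * l + β - t j| ≤ 1) ∧
          c * δ / 32 / x * ∑ j ∈ J, v j ≤ ∑ l ∈ F, g (α * l + β)) ∧
        ENNReal.ofReal (min (c * δ) 1 / 4 / (4 + x) * r) ≤ volume V := by
  obtain ⟨Y, hY⟩ := one_window hc hΛ β hx0 hr hrx hδ
  refine ⟨Y, fun J t v G hJ hG => ?_⟩
  set Bx : Set ℝ := Metric.closedBall x r with hBx
  have hBv : volume Bx = ENNReal.ofReal (2 * r) := Real.volume_closedBall x r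
  have hBr : (volume Bx).toReal = 2 * r := by rw [hBv, ENNReal.toReal_ofReal (by positivity)]
  have hBm : MeasurableSet Bx := Metric.isClosed_closedBall.measurableSet
  set K : ℝ := ∑ j ∈ J, v j with hK
  have hK0 : 0 ≤ K := Finset.sum_nonneg fun j hj => (hJ j hj).2.2.2
  have hmin0 : 0 ≤ min (c * δ) 1 := le_min (by positivity) zero_le_one
  rcases eq_or_lt_of_le hK0 with hK1 | hKpos
  · refine ⟨Bx, hBm, subset_rfl, fun α _ => ⟨∅, by simp, ?_⟩, ?_⟩
    · rw [← hK1, mul_zero, Finset.sum_empty]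
    · rw [hBv]
      apply ENNReal.ofReal_le_ofReal
      have h1 : min (c * δ) 1 ≤ 1 := min_le_right _ _
      have h2 : min (c * δ) 1 / 4 / (4 + x) ≤ 2 := by
        rw [div_div, div_le_iff₀ (by positivity)]
        nlinarith
      exact mul_le_mul_of_nonneg_right h2 hr.le
  · have hex : ∀ j ∈ J, ∃ S : Finset ℝ, (∀ l ∈ S, l ∈ Λ ∧ 0 < l) ∧
        (∀ l ∈ S, ∀ α : ℝ, |α * l + β - t j| ≤ 1 → α ∈ Metric.closedBall x r) ∧
        ∀ G : Set ℝ, ENNReal.ofReal δ ≤ volume G → 
          ENNReal.ofReal (c * δ / (2 * x) * r) ≤ ∑ l ∈ S, volume {α : ℝ | α * l + β ∈ G} :=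
      fun j hj => hY (t j) (hJ j hj).1
    choose! S hSΛ hSB hSv using hex
    set W : ℕ → ℝ → Set ℝ := fun j l => {α : ℝ | α * l + β ∈ G j} with hWd
    have hWm : ∀ j ∈ J, ∀ l, MeasurableSet (W j l) := by
      intro j hj l
      have e : W j l = (fun α : ℝ => α * l + β) ⁻¹' (G j) := rfl
      rw [e]
      exact (hG j hj).1.preimage (by fun_prop)
    have hWB : ∀ j ∈ J, ∀ l ∈ S j, W j l ⊆ Bx := fun j hj l hl α hα =>
      hSB j hj l hl α ((hG j hj).2.1 _ hα).1
    set N : ℝ → ℝ := fun α => ∑ j ∈ J, ∑ l ∈ S j, v j * (W j l).indicator (fun _ => (1 : ℝ)) α with hN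
    have hfin : IsFiniteMeasure (volume.restrict Bx) :=
      ⟨by rw [Measure.restrict_apply_univ, hBv]; exact ENNReal.ofReal_lt_top⟩
    have hint1 : ∀ j ∈ J, ∀ l ∈ S j, Integrable
        (fun α => v j * (W j l).indicator (fun _ => (1 : ℝ)) α) (volume.restrict Bx) :=
      fun j hj l _ => ((integrable_const (1 : ℝ)).indicator (hWm j hj l)).const_mul (v j)
    have hint2 : ∀ j ∈ J, Integrable
        (fun α => ∑ l ∈ S j, v j * (W j l).indicator (fun _ => (1 : ℝ)) α) (volume.restrict Bx) :=
      fun j hj => integrable_finsetSum _ fun l hl => hint1 j hj l hl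
    have hNint : Integrable N (volume.restrict Bx) := integrable_finsetSum _ fun j hj => hint2 j hj
    have hNm : Measurable N := by
      refine Finset.measurable_sum _ fun j hj => Finset.measurable_sum _ fun l _ => ?_
      exact (measurable_const.indicator (hWm j hj l)).const_mul (v j)
    have hWfin : ∀ j ∈ J, ∀ l ∈ S j, volume (W j l) ≠ ⊤ := fun j hj l hl =>
      ne_top_of_le_ne_top (by rw [hBv]; exact ENNReal.ofReal_ne_top) (measure_mono (hWB j hj l hl))
    -- the mean of `N`
    have hlow : K * (c * δ / (2 * x) * r) ≤ ∫ α in Bx, N α := by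
      have e1 : ∫ α in Bx, N α = ∑ j ∈ J, ∑ l ∈ S j, v j * (volume (W j l)).toReal := by
        rw [hN]
        rw [integral_finsetSum _ hint2]
        refine Finset.sum_congr rfl fun j hj => ?_
        rw [integral_finsetSum _ (hint1 j hj)]
        refine Finset.sum_congr rfl fun l hl => ?_
        rw [integral_const_mul, integral_indicator_const _ (hWm j hj l), smul_eq_mul, mul_one,
          measureReal_restrict_apply (hWm j hj l), inter_eq_left.2 (hWB j hj l hl)]
        rfl
      rw [e1, hK, Finset.sum_mul]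
      refine Finset.sum_le_sum fun j hj => ?_
      rw [← Finset.mul_sum]
      refine mul_le_mul_of_nonneg_left ?_ (hJ j hj).2.2.2
      have h1 := hSv j hj (G j) (hG j hj).2.2
      rw [← ENNReal.toReal_sum (hWfin j hj)]
      refine (ENNReal.ofReal_le_iff_le_toReal ?_).1 h1
      exact ENNReal.sum_ne_top.2 (hWfin j hj)
    -- `N` as a count
    have hcount : ∀ α, N α = ∑ j ∈ J, v j * (((S j).filter fun l => α * l + β ∈ G j).card : ℝ) := by
      intro α
      rw [hN]
      refine Finset.sum_congr rfl fun j _ => ?_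
      rw [← Finset.mul_sum]
      congr 1
      rw [Finset.card_filter]
      push_cast
      refine Finset.sum_congr rfl fun l _ => ?_
      rw [Set.indicator_apply]
      rfl
    have hup : ∀ α ∈ Bx, N α ≤ K * (4 / x + 1) := by
      intro α hα
      rw [hcount α, hK, Finset.sum_mul]
      refine Finset.sum_le_sum fun j hj => ?_
      refine mul_le_mul_of_nonneg_left ?_ (hJ j hj).2.2.2
      have hα' : x - r ≤ α := by
        rw [hBx, Real.closedBall_eq_Icc] at hα
        exact hα.1
      have hα0 : 0 < α := by linarith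
      have h1 := sep_card ((S j).filter fun l => α * l + β ∈ G j) (u := (t j - 1 - β) / α)
        (v := (t j + 1 - β) / α) (by gcongr; linarith) (by
          intro l hl
          rw [Finset.mem_filter] at hl
          have h2 := abs_le.1 ((hG j hj).2.1 _ hl.2).1
          constructor
          · rw [div_le_iff₀ hα0]; linarith
          · rw [le_div_iff₀ hα0]; linarith) (by
          intro l hl l' hl' hne
          rw [Finset.mem_filter] at hl hl'
          exact hsep l (hSΛ j hj l hl.1).1 l' (hSΛ j hj l' hl'.1).1 hne)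
      have e2 : (t j + 1 - β) / α - (t j - 1 - β) / α = 2 / α := by ring
      rw [e2] at h1
      have h3 : 2 / α ≤ 4 / x := by
        rw [div_le_div_iff₀ hα0 hx0]; linarith
      linarith
    set τ : ℝ := c * δ / (8 * x) * K with hτ
    set V : Set ℝ := {α : ℝ | α ∈ Bx ∧ τ ≤ N α} with hV
    have hVm : MeasurableSet V := hBm.inter (measurableSet_le measurable_const hNm)
    have hVB : V ⊆ Bx := fun α hα => hα.1
    refine ⟨V, hVm, hVB, fun α hα => ?_, ?_⟩
    · refine ⟨(J.biUnion S).filter fun l => ∃ j ∈ J, α * l + β ∈ G j, ?_, ?_⟩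
      · intro l hl
        rw [Finset.mem_filter, Finset.mem_biUnion] at hl
        obtain ⟨⟨j, hj, hlS⟩, j', hj', hl'⟩ := hl
        exact ⟨(hSΛ j hj l hlS).1, j', hj', ((hG j' hj').2.1 _ hl').1⟩
      · set F : Finset ℝ := (J.biUnion S).filter fun l => ∃ j ∈ J, α * l + β ∈ G j with hF
        have h1 : N α ≤ ∑ j ∈ J, ∑ l ∈ F, if α * l + β ∈ G j then g (α * l + β) else 0 := by
          rw [hcount α]
          refine Finset.sum_le_sum fun j hj => ?_
          rw [← Finset.sum_filter]
          have h2 : (S j).filter (fun l => α * l + β ∈ G j) ⊆ F.filter fun l => α * l + β ∈ G j := by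
            intro l hl
            rw [Finset.mem_filter] at hl
            rw [Finset.mem_filter, hF, Finset.mem_filter, Finset.mem_biUnion]
            exact ⟨⟨⟨j, hj, hl.1⟩, j, hj, hl.2⟩, hl.2⟩
          calc v j * (((S j).filter fun l => α * l + β ∈ G j).card : ℝ)
              = ∑ _l ∈ (S j).filter (fun l => α * l + β ∈ G j), v j := by
                rw [Finset.sum_const, nsmul_eq_mul, mul_comm]
            _ ≤ ∑ l ∈ (S j).filter (fun l => α * l + β ∈ G j), g (α * l + β) := by
                refine Finset.sum_le_sum fun l hl => ?_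
                rw [Finset.mem_filter] at hl
                exact ((hG j hj).2.1 _ hl.2).2
            _ ≤ _ := Finset.sum_le_sum_of_subset_of_nonneg h2 fun l _ _ => hg _
        rw [Finset.sum_comm] at h1
        have h3 : ∀ l ∈ F, (∑ j ∈ J, if α * l + β ∈ G j then g (α * l + β) else 0) ≤
            4 * g (α * l + β) := by
          intro l _
          rw [← Finset.sum_filter, Finset.sum_const, nsmul_eq_mul]
          refine mul_le_mul_of_nonneg_right ?_ (hg _)
          have h4 : (J.filter fun j => α * l + β ∈ G j).card ≤ 4 := by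
            refine (Finset.card_le_card ?_).trans (near_card J t (fun j hj =>
              ⟨(hJ j hj).2.1, (hJ j hj).2.2.1⟩) (α * l + β))
            intro j hj
            rw [Finset.mem_filter] at hj ⊢
            exact ⟨hj.1, ((hG j hj.1).2.1 _ hj.2).1⟩
          exact_mod_cast h4
        have h5 := h1.trans (Finset.sum_le_sum h3)
        rw [← Finset.mul_sum] at h5
        have h6 := hα.2
        have e : c * δ / 32 / x * K = τ / 4 := by rw [hτ]; field_simp; ring
        rw [e]
        linarith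
    · -- the measure of `V`
      have hVfin : volume V ≠ ⊤ :=
        ne_top_of_le_ne_top (by rw [hBv]; exact ENNReal.ofReal_ne_top) (measure_mono hVB)
      have hτ0 : 0 ≤ τ := by rw [hτ]; positivity
      have hpt : ∀ α ∈ Bx, N α ≤ K * (4 / x + 1) * V.indicator (fun _ => (1 : ℝ)) α + τ := by
        intro α hα
        by_cases hαV : α ∈ V
        · rw [indicator_of_mem hαV, mul_one]
          linarith [hup α hα]
        · rw [indicator_of_notMem hαV, mul_zero, zero_add]
          have : ¬ τ ≤ N α := fun h => hαV ⟨hα, h⟩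
          linarith
      have hR : Integrable (fun α => K * (4 / x + 1) * V.indicator (fun _ => (1 : ℝ)) α + τ)
          (volume.restrict Bx) :=
        (((integrable_const (1 : ℝ)).indicator hVm).const_mul _).add (integrable_const _)
      have h1 := setIntegral_mono_on hNint hR hBm hpt
      have h2 : ∫ α in Bx, (K * (4 / x + 1) * V.indicator (fun _ => (1 : ℝ)) α + τ) =
          K * (4 / x + 1) * (volume V).toReal + τ * (2 * r) := by
        rw [integral_add (((integrable_const (1 : ℝ)).indicator hVm).const_mul _)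
          (integrable_const _), integral_const_mul, integral_indicator_const _ hVm, smul_eq_mul,
          mul_one, measureReal_restrict_apply hVm, inter_eq_left.2 hVB, integral_const, smul_eq_mul,
          measureReal_restrict_apply_univ]
        change K * (4 / x + 1) * (volume V).toReal + (volume Bx).toReal * τ = _
        rw [hBr]; ring
      rw [h2] at h1
      have h3 := hlow.trans h1
      have e4 : τ * (2 * r) = K * (c * δ / (4 * x) * r) := by rw [hτ]; field_simp; ring
      have e5 : K * (c * δ / (2 * x) * r) = K * (c * δ / (4 * x) * r) + K * (c * δ / (4 * x) * r) := by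
        field_simp; ring
      have h6 : K * (c * δ / (4 * x) * r) ≤ K * ((4 / x + 1) * (volume V).toReal) := by
        rw [← mul_assoc K (4 / x + 1)]
        linarith
      have h7 := le_of_mul_le_mul_left h6 hKpos
      have h8 : c * δ / 4 / (4 + x) * r ≤ (volume V).toReal := by
        have e9 : (4 / x + 1) = (4 + x) / x := by field_simp
        rw [e9] at h7
        have h10 : c * δ / (4 * x) * r * x ≤ (4 + x) / x * (volume V).toReal * x :=
          mul_le_mul_of_nonneg_right h7 hx0.le
        have e11 : c * δ / (4 * x) * r * x = c * δ * r / 4 := by field_simp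
        have e12 : (4 + x) / x * (volume V).toReal * x = (4 + x) * (volume V).toReal := by field_simp
        rw [e11, e12] at h10
        rw [div_mul_eq_mul_div, div_le_iff₀ (by positivity)]
        linarith
      refine (ENNReal.ofReal_le_iff_le_toReal hVfin).2 ?_
      refine le_trans ?_ h8
      gcongr
      exact min_le_left _ _

end Pool.Agent.R509.MA
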