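import Mathlib
import Pool.Agent.R509.MA.Hit
import Pool.Agent.R509.MA.Ae

/-!
Functions whose large values persist: powers, cells, bad scales.
-/

set_option autoImplicit false

open MeasureTheory Filter Topology Set Real

namespace Pool.Agent.R509.MA

/-- what is used about `Z` -/
structure Per (Z : ℝ → ℝ) : Prop where
  cont : Continuous Z
  nonneg : ∀ t, 0 ≤ Z t
  crude : ∃ C A : ℝ, 1 ≤ C ∧ 0 < A ∧ ∀ t, 1 ≤ t → Z t ≤ C * t ^ A
  persist : ∀ κ μ : ℝ, 0 < κ → κ < μ → ∃ δ : ℝ, 0 < δ ∧ ∃ T₀ : ℝ, 1 ≤ T₀ ∧ ∀ T : ℝ, T₀ ≤ T →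
    T ^ μ ≤ Z T → ENNReal.ofReal δ ≤ volume {x : ℝ | |x - T| ≤ 1 ∧ T ^ κ < Z x}

variable {Z : ℝ → ℝ}

/-- the conclusion at one point -/
def Good (Z : ℝ → ℝ) (p ε δ T : ℝ) : Prop :=
  Z T ^ p ≤ T ^ ε ∨ ENNReal.ofReal δ ≤ volume {x : ℝ | |x - T| ≤ 1 ∧ Z T ^ p * T ^ (-ε) ≤ Z x ^ p}

lemma Good.mono {p ε δ δ' T : ℝ} (h : δ' ≤ δ) (hg : Good Z p ε δ T) : Good Z p ε δ' T := by
  rcases hg with h1 | h1
  · exact Or.inl h1
  · exact Or.inr ((ENNReal.ofReal_le_ofReal h).trans h1)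

lemma Per.grid_aux (H : Per Z) {p ε : ℝ} (hp : 0 < p) (hε : 0 < ε) (I : ℕ) :
    ∃ δ : ℝ, 0 < δ ∧ ∃ T₀ : ℝ, 1 ≤ T₀ ∧ ∀ T : ℝ, T₀ ≤ T → Z T < T ^ (I * (ε / (2 * p))) →
      Good Z p ε δ T := by
  induction I with
  | zero =>
    refine ⟨1, one_pos, 1, le_rfl, fun T hT hZ => Or.inl ?_⟩
    rw [Nat.cast_zero, zero_mul, rpow_zero] at hZ
    exact (rpow_le_one (H.nonneg T) hZ.le hp.le).trans (one_le_rpow hT hε.le)
  | succ I ih =>
    obtain ⟨δ₁, hδ₁, T₁, hT₁, h1⟩ := ih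
    set η : ℝ := ε / (2 * p) with hη
    have hη0 : 0 < η := by positivity
    have hηp : η * p = ε / 2 := by rw [hη]; field_simp
    rcases Nat.eq_zero_or_pos I with hI | hI
    · subst hI
      refine ⟨1, one_pos, 1, le_rfl, fun T hT hZ => Or.inl ?_⟩
      have h2 : Z T ^ p ≤ (T ^ (((0 + 1 : ℕ) : ℝ) * η)) ^ p := rpow_le_rpow (H.nonneg T) hZ.le hp.le
      refine h2.trans ?_
      rw [← rpow_mul (by linarith)]
      refine rpow_le_rpow_of_exponent_le hT ?_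
      push_cast
      rw [one_mul, hηp]
      linarith
    · have hI1 : (1 : ℝ) ≤ I := by exact_mod_cast hI
      obtain ⟨δ₂, hδ₂, T₂, hT₂, h2⟩ := H.persist ((I - 1 / 2) * η) (I * η)
        (mul_pos (by linarith) hη0) (by nlinarith)
      refine ⟨min δ₁ δ₂, lt_min hδ₁ hδ₂, max T₁ T₂, le_max_of_le_left hT₁, fun T hT hZ => ?_⟩
      have ha : T₁ ≤ T := (le_max_left _ _).trans hT
      have hb : T₂ ≤ T := (le_max_right _ _).trans hT
      have hT1 : 1 ≤ T := hT₁.trans ha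
      have hT0 : 0 < T := by linarith
      rcases lt_or_ge (Z T) (T ^ (I * η)) with h3 | h3
      · exact (h1 T ha h3).mono (min_le_left _ _)
      · refine Good.mono (min_le_right _ _) (Or.inr ((h2 T hb h3).trans (measure_mono ?_)))
        rintro x ⟨hx1, hx2⟩
        refine ⟨hx1, ?_⟩
        have h4 : Z T ^ p ≤ T ^ ((((I + 1 : ℕ) : ℝ) * η) * p) := by
          rw [rpow_mul hT0.le]
          exact rpow_le_rpow (H.nonneg T) hZ.le hp.le
        have h5 : T ^ ((((I : ℝ) - 1 / 2) * η) * p) ≤ Z x ^ p := by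
          rw [rpow_mul hT0.le]
          exact rpow_le_rpow (rpow_nonneg hT0.le _) hx2.le hp.le
        refine le_trans ?_ h5
        calc Z T ^ p * T ^ (-ε) ≤ T ^ ((((I + 1 : ℕ) : ℝ) * η) * p) * T ^ (-ε) :=
              mul_le_mul_of_nonneg_right h4 (rpow_nonneg hT0.le _)
          _ = T ^ ((((I + 1 : ℕ) : ℝ) * η) * p + -ε) := by rw [← rpow_add hT0]
          _ ≤ _ := by
              refine rpow_le_rpow_of_exponent_le hT1 ?_
              push_cast
              rw [mul_assoc, mul_assoc, hηp]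
              nlinarith

/-- **uniform persistence of powers** -/
theorem Per.grid (H : Per Z) {p ε : ℝ} (hp : 0 < p) (hε : 0 < ε) :
    ∃ δ : ℝ, 0 < δ ∧ ∃ T₀ : ℝ, 1 ≤ T₀ ∧ ∀ T : ℝ, T₀ ≤ T → Good Z p ε δ T := by
  obtain ⟨C, A, hC, hA, hcr⟩ := H.crude
  set η : ℝ := ε / (2 * p) with hη
  have hη0 : 0 < η := by positivity
  set I : ℕ := ⌈(A + 1) / η⌉₊ with hI
  have hIη : A + 1 ≤ I * η := by
    have := Nat.le_ceil ((A + 1) / η)
    rwa [div_le_iff₀ hη0] at this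
  obtain ⟨δ, hδ, T₀, hT₀, h⟩ := H.grid_aux hp hε I
  refine ⟨δ, hδ, max T₀ (C + 1), le_max_of_le_left hT₀, fun T hT => h T ((le_max_left _ _).trans hT) ?_⟩
  have h1 : C + 1 ≤ T := (le_max_right _ _).trans hT
  have hT1 : 1 ≤ T := by linarith
  have hT0 : 0 < T := by linarith
  calc Z T ≤ C * T ^ A := hcr T hT1
    _ < T * T ^ A := mul_lt_mul_of_pos_right (by linarith) (rpow_pos_of_pos hT0 _)
    _ = T ^ (A + 1) := by rw [rpow_add hT0, rpow_one, mul_comm]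
    _ ≤ _ := rpow_le_rpow_of_exponent_le hT1 hIη

/-- sums of dyadic blocks -/
lemma dyadic {f : ℝ → ℝ} (hf : Continuous f) (hf0 : ∀ t, 0 ≤ f t) {s C₀ : ℝ} (hs : 1 ≤ s)
    (h : ∀ U : ℝ, 1 ≤ U → ∫ t in U..(2 * U), f t ≤ C₀ * U ^ s) :
    ∃ C : ℝ, ∀ T : ℝ, 1 ≤ T → ∫ t in (0 : ℝ)..T, f t ≤ C * T ^ s := by
  have hii : ∀ a b : ℝ, IntervalIntegrable f volume a b := fun a b => hf.intervalIntegrable a b
  set C₁ : ℝ := (∫ t in (0 : ℝ)..2, f t) + |C₀| with hC₁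
  have h02 : 0 ≤ ∫ t in (0 : ℝ)..2, f t :=
    intervalIntegral.integral_nonneg (by norm_num) fun t _ => hf0 t
  have hC1 : 0 ≤ C₁ := by positivity
  have key : ∀ n : ℕ, ∀ T : ℝ, 1 ≤ T → T ≤ 2 ^ (n + 1) → ∫ t in (0 : ℝ)..T, f t ≤ C₁ * T ^ s := by
    intro n
    induction n with
    | zero =>
      intro T h1 h2
      rw [zero_add, pow_one] at h2
      have h3 : ∫ t in (0 : ℝ)..T, f t ≤ ∫ t in (0 : ℝ)..2, f t :=
        intervalIntegral.integral_mono_interval le_rfl (by linarith) h2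
          (Eventually.of_forall fun t => hf0 t) (hii _ _)
      have h4 : C₁ * 1 ≤ C₁ * T ^ s := mul_le_mul_of_nonneg_left (one_le_rpow h1 (by linarith)) hC1
      have h5 : 0 ≤ |C₀| := abs_nonneg _
      linarith
    | succ n ih =>
      intro T h1 h2
      rcases le_or_gt T (2 ^ (n + 1)) with h3 | h3
      · exact ih T h1 h3
      · have h4 : (2 : ℝ) ≤ 2 ^ (n + 1) := by
          calc (2 : ℝ) = 2 ^ 1 := by norm_num
            _ ≤ 2 ^ (n + 1) := pow_le_pow_right₀ (by norm_num) (by omega)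
        have h5 : 1 ≤ T / 2 := by linarith
        have h6 : T / 2 ≤ 2 ^ (n + 1) := by
          rw [pow_succ] at h2
          linarith
        have h7 := ih (T / 2) h5 h6
        have h8 := h (T / 2) h5
        have e : 2 * (T / 2) = T := by ring
        rw [e] at h8
        have h9 := intervalIntegral.integral_add_adjacent_intervals (hii 0 (T / 2)) (hii (T / 2) T)
        have hTs : 0 ≤ (T / 2) ^ s := rpow_nonneg (by linarith) _
        have h10 : C₀ * (T / 2) ^ s ≤ C₁ * (T / 2) ^ s := by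
          refine mul_le_mul_of_nonneg_right ?_ hTs
          have := le_abs_self C₀
          linarith
        have h11 : 2 * (T / 2) ^ s ≤ T ^ s := by
          have h12 : (2 : ℝ) ≤ 2 ^ s := by
            calc (2 : ℝ) = 2 ^ (1 : ℝ) := (rpow_one 2).symm
              _ ≤ 2 ^ s := rpow_le_rpow_of_exponent_le (by norm_num) hs
          calc 2 * (T / 2) ^ s ≤ 2 ^ s * (T / 2) ^ s := mul_le_mul_of_nonneg_right h12 hTs
            _ = T ^ s := by
                rw [← mul_rpow (by norm_num) (by linarith), e]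
        have h13 := mul_le_mul_of_nonneg_left h11 hC1
        linarith
  refine ⟨C₁, fun T hT => ?_⟩
  obtain ⟨n, hn⟩ := pow_unbounded_of_one_lt T (show (1 : ℝ) < 2 by norm_num)
  refine key n T hT (hn.le.trans ?_)
  exact pow_le_pow_right₀ (by norm_num) (by omega)

/-- maxima over cells -/
lemma cells {f : ℝ → ℝ} (hf : Continuous f) (hf0 : ∀ t, 0 ≤ f t) : ∃ t : ℕ → ℝ,
    (∀ j : ℕ, (j : ℝ) ≤ t j ∧ t j ≤ j + 1) ∧ ∀ U : ℝ, 1 ≤ U →
      ∫ x in U..(2 * U), f x ≤ ∑ j ∈ Finset.Ico ⌊U⌋₊ (⌊2 * U⌋₊ + 1), f (t j) := by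
  have hii : ∀ a b : ℝ, IntervalIntegrable f volume a b := fun a b => hf.intervalIntegrable a b
  have hex : ∀ j : ℕ, ∃ t ∈ Icc (j : ℝ) (j + 1), ∀ x ∈ Icc (j : ℝ) (j + 1), f x ≤ f t := fun j =>
    isCompact_Icc.exists_isMaxOn (nonempty_Icc.2 (by linarith)) hf.continuousOn
  choose t ht hmax using hex
  refine ⟨t, fun j => ⟨(ht j).1, (ht j).2⟩, fun U hU => ?_⟩
  have h1 : ∫ x in U..(2 * U), f x ≤ ∫ x in ((⌊U⌋₊ : ℕ) : ℝ)..((⌊2 * U⌋₊ + 1 : ℕ) : ℝ), f x := by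
    refine intervalIntegral.integral_mono_interval (Nat.floor_le (by linarith)) (by linarith) ?_
      (Eventually.of_forall fun t => hf0 t) (hii _ _)
    push_cast
    exact (Nat.lt_floor_add_one _).le
  have hfl : ⌊U⌋₊ ≤ ⌊2 * U⌋₊ + 1 := (Nat.floor_mono (by linarith)).trans (Nat.le_succ _)
  have h2 := intervalIntegral.sum_integral_adjacent_intervals_Ico (f := f) (μ := volume)
    (a := fun j : ℕ => (j : ℝ)) hfl (fun k _ => hii _ _)
  rw [← h2] at h1
  refine h1.trans (Finset.sum_le_sum fun j _ => ?_)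
  have h3 : ∫ x in (j : ℝ)..((j + 1 : ℕ) : ℝ), f x ≤ ∫ _x in (j : ℝ)..((j + 1 : ℕ) : ℝ), f (t j) := by
    refine intervalIntegral.integral_mono_on (by push_cast; linarith) (hii _ _)
      intervalIntegrable_const fun x hx => hmax j x ?_
    push_cast at hx
    exact hx
  refine h3.trans (le_of_eq ?_)
  rw [intervalIntegral.integral_const, smul_eq_mul]
  push_cast
  ring

end Pool.Agent.R509.MA
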