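import Mathlib
import Pool.Agent.R509.MA.Per

/-!
Moments and discrete moments along dilations of a thick set.
-/

set_option autoImplicit false

open MeasureTheory Filter Topology Set Real

namespace Pool.Agent.R509.MA

variable {Z : ℝ → ℝ}

/-- the moment of order `p` has the exponent `θ` -/
def Moment (Z : ℝ → ℝ) (p θ : ℝ) : Prop := ∀ ε : ℝ, 0 < ε → ∃ C : ℝ, ∀ T : ℝ, 1 ≤ T →
  ∫ t in (0 : ℝ)..T, Z t ^ p ≤ C * T ^ (θ + ε)

/-- the same for the points `α l + β`, `l ∈ Λ` -/
def Disc (Z : ℝ → ℝ) (Λ : Set ℝ) (α β p θ : ℝ) : Prop := ∀ ε : ℝ, 0 < ε → ∃ C : ℝ, ∀ T : ℝ, 1 ≤ T →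
  ∀ F : Finset ℝ, (∀ l ∈ F, l ∈ Λ ∧ 0 ≤ α * l + β ∧ α * l + β ≤ T) →
    ∑ l ∈ F, Z (α * l + β) ^ p ≤ C * T ^ (θ + ε)

lemma Per.contp (H : Per Z) {p : ℝ} (hp : 0 < p) : Continuous fun t => Z t ^ p :=
  H.cont.rpow_const fun _ => Or.inr hp.le

open Classical in
theorem disc_of_moment (H : Per Z) {p θ : ℝ} (hp : 0 < p) (hθ : 1 ≤ θ) {Λ : Set ℝ}
    (hsep : ∀ l ∈ Λ, ∀ l' ∈ Λ, l ≠ l' → 1 ≤ |l - l'|) {α : ℝ} (hα : 0 < α) (β : ℝ)
    (h : Moment Z p θ) : Disc Z Λ α β p θ := by
  intro ε hε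
  set e : ℝ := ε / 2 with he
  have he0 : 0 < e := by rw [he]; linarith
  obtain ⟨δ, hδ, T₀, hT₀, hgood⟩ := H.grid hp he0
  obtain ⟨C, hC⟩ := h e he0
  have hf := H.contp hp
  set f : ℝ → ℝ := fun t => Z t ^ p with hfd
  have hf0 : ∀ t, 0 ≤ f t := fun t => rpow_nonneg (H.nonneg t) _
  obtain ⟨M, hM⟩ := (isCompact_Icc (a := (0 : ℝ)) (b := T₀)).exists_bound_of_continuousOn
    hf.continuousOn
  have hM0 : 0 ≤ M := (norm_nonneg _).trans (hM 0 ⟨le_rfl, by linarith⟩)
  set c₂ : ℝ := 2 / α + 1 with hc₂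
  have hc20 : 0 < c₂ := by positivity
  refine ⟨(1 / α + 1) * (M + 1) + δ⁻¹ * c₂ * |C| * 2 ^ (θ + e), fun T hT F hF => ?_⟩
  have hT0 : 0 < T := by linarith
  have hTe : 1 ≤ T ^ e := one_le_rpow hT he0.le
  set B : Set ℝ := Icc 0 (T + 1) with hB
  have hBm : MeasurableSet B := measurableSet_Icc
  set I : ℝ → Set ℝ := fun l => Icc (α * l + β - 1) (α * l + β + 1) with hI
  have hfB : IntegrableOn f B := hf.continuousOn.integrableOn_compact isCompact_Icc
  set G : ℝ → ℝ := fun l => ∫ x in B, (I l).indicator f x with hG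
  have hGint : ∀ l, Integrable ((I l).indicator f) (volume.restrict B) := fun l =>
    Integrable.indicator hfB measurableSet_Icc
  have hG0 : ∀ l, 0 ≤ G l := fun l => integral_nonneg fun x => indicator_nonneg (fun y _ => hf0 y) x
  have hone : ∀ l ∈ F, f (α * l + β) ≤ (M + 1) * T ^ e + δ⁻¹ * T ^ e * G l := by
    intro l hl
    obtain ⟨-, hy0, hyT⟩ := hF l hl
    have hpos : 0 ≤ δ⁻¹ * T ^ e * G l := by
      have := hG0 l
      positivity
    set y : ℝ := α * l + β with hy
    rcases lt_or_ge y T₀ with h1 | h1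
    · have h2 := hM y ⟨hy0, h1.le⟩
      rw [norm_eq_abs, abs_of_nonneg (hf0 y)] at h2
      nlinarith
    · have hy1 : 1 ≤ y := hT₀.trans h1
      have hyp : 0 < y := by linarith
      have hye : y ^ e ≤ T ^ e := rpow_le_rpow hyp.le hyT he0.le
      rcases hgood y h1 with h2 | h2
      · have h3 : f y ≤ y ^ e := h2
        nlinarith
      · set E : Set ℝ := {x : ℝ | |x - y| ≤ 1 ∧ Z y ^ p * y ^ (-e) ≤ Z x ^ p} with hE
        have hEm : MeasurableSet E := by
          have h01 : IsClosed {x : ℝ | |x - y| ≤ 1} :=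
            isClosed_le (f := fun x : ℝ => |x - y|) (by fun_prop) continuous_const
          exact (h01.inter (isClosed_le (f := fun _ : ℝ => Z y ^ p * y ^ (-e)) continuous_const
            hf)).measurableSet
        have hEI : E ⊆ I l := by
          rintro x ⟨hx, _⟩
          have := abs_le.1 hx
          exact ⟨by change y - 1 ≤ x; linarith, by change x ≤ y + 1; linarith⟩
        have hIB : I l ⊆ B := by
          rintro x ⟨hx1, hx2⟩
          have hx1' : y - 1 ≤ x := hx1
          have hx2' : x ≤ y + 1 := hx2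
          exact ⟨by linarith, by linarith⟩
        have hEfin : volume E ≠ ⊤ := ne_top_of_le_ne_top (by
          rw [hI, Real.volume_Icc]; exact ENNReal.ofReal_ne_top) (measure_mono hEI)
        set b : ℝ := Z y ^ p * y ^ (-e) with hb
        have hb0 : 0 ≤ b := mul_nonneg (hf0 y) (rpow_nonneg hyp.le _)
        have h4 : ∫ x in B, E.indicator (fun _ => b) x ≤ G l := by
          have : IsFiniteMeasure (volume.restrict B) :=
            ⟨by rw [Measure.restrict_apply_univ, hB, Real.volume_Icc]; exact ENNReal.ofReal_lt_top⟩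
          refine integral_mono ((integrable_const b).indicator hEm) (hGint l) fun x => ?_
          by_cases hx : x ∈ E
          · rw [indicator_of_mem hx, indicator_of_mem (hEI hx)]
            exact hx.2
          · rw [indicator_of_notMem hx]
            exact indicator_nonneg (fun y _ => hf0 y) x
        rw [integral_indicator_const _ hEm, smul_eq_mul, measureReal_restrict_apply hEm,
          inter_eq_left.2 (hEI.trans hIB)] at h4
        have h5 : δ ≤ volume.real E := (ENNReal.ofReal_le_iff_le_toReal hEfin).1 h2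
        have h6 : δ * b ≤ G l := (mul_le_mul_of_nonneg_right h5 hb0).trans h4
        have h7 : b ≤ δ⁻¹ * G l := by
          rw [inv_mul_eq_div, le_div_iff₀ hδ]
          linarith
        have h8 : f y = b * y ^ e := by
          rw [hb, mul_assoc, ← rpow_add hyp, neg_add_cancel, rpow_zero, mul_one]
        have h9 : f y ≤ δ⁻¹ * G l * T ^ e := by
          rw [h8]
          exact mul_le_mul h7 hye (rpow_nonneg hyp.le _) (mul_nonneg (by positivity) (hG0 l))
        have h10 : 0 ≤ (M + 1) * T ^ e := by positivity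
        calc f y ≤ δ⁻¹ * G l * T ^ e := h9
          _ = δ⁻¹ * T ^ e * G l := by ring
          _ ≤ _ := by linarith
  have hsepF : ∀ l ∈ F, ∀ l' ∈ F, l ≠ l' → 1 ≤ |l - l'| := fun l hl l' hl' hne =>
    hsep l (hF l hl).1 l' (hF l' hl').1 hne
  have hcard : (F.card : ℝ) ≤ (1 / α + 1) * T := by
    have h1 := sep_card F (u := -β / α) (v := (T - β) / α) (by gcongr; linarith) (fun l hl => by
      obtain ⟨-, hy0, hyT⟩ := hF l hl
      constructor
      · rw [div_le_iff₀ hα]; linarith
      · rw [le_div_iff₀ hα]; linarith) hsepF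
    have e1 : (T - β) / α - -β / α + 1 = 1 / α * T + 1 := by ring
    rw [e1] at h1
    linarith
  have hsumG : ∑ l ∈ F, G l ≤ c₂ * ∫ x in B, f x := by
    rw [hG, ← integral_finsetSum _ fun l _ => hGint l, ← integral_const_mul]
    refine integral_mono (integrable_finsetSum _ fun l _ => hGint l) (hfB.const_mul c₂) fun x => ?_
    change ∑ l ∈ F, (I l).indicator f x ≤ c₂ * f x
    have e1 : ∑ l ∈ F, (I l).indicator f x = ((F.filter fun l => x ∈ I l).card : ℝ) * f x := by
      rw [← nsmul_eq_mul, ← Finset.sum_const, Finset.sum_filter]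
      refine Finset.sum_congr rfl fun l _ => ?_
      rw [Set.indicator_apply]
    rw [e1]
    refine mul_le_mul_of_nonneg_right ?_ (hf0 x)
    have h1 := sep_card (F.filter fun l => x ∈ I l) (u := (x - 1 - β) / α) (v := (x + 1 - β) / α)
      (by gcongr; linarith) (fun l hl => by
        rw [Finset.mem_filter] at hl
        have h2 : α * l + β - 1 ≤ x := hl.2.1
        have h3 : x ≤ α * l + β + 1 := hl.2.2
        constructor
        · rw [div_le_iff₀ hα]; linarith
        · rw [le_div_iff₀ hα]; linarith) (fun l hl l' hl' hne => by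
        rw [Finset.mem_filter] at hl hl'
        exact hsepF l hl.1 l' hl'.1 hne)
    have e2 : (x + 1 - β) / α - (x - 1 - β) / α + 1 = c₂ := by rw [hc₂]; ring
    rw [e2] at h1
    exact h1
  have hint : ∫ x in B, f x ≤ |C| * 2 ^ (θ + e) * T ^ (θ + e) := by
    have e1 : ∫ x in B, f x = ∫ x in (0 : ℝ)..(T + 1), f x := by
      rw [intervalIntegral.integral_of_le (by linarith), hB, integral_Icc_eq_integral_Ioc]
    rw [e1]
    refine (hC (T + 1) (by linarith)).trans ?_
    have h1 : (T + 1) ^ (θ + e) ≤ (2 * T) ^ (θ + e) :=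
      rpow_le_rpow (by linarith) (by linarith) (by linarith)
    rw [mul_rpow (by norm_num) hT0.le] at h1
    calc C * (T + 1) ^ (θ + e) ≤ |C| * (T + 1) ^ (θ + e) :=
          mul_le_mul_of_nonneg_right (le_abs_self C) (rpow_nonneg (by linarith) _)
      _ ≤ |C| * (2 ^ (θ + e) * T ^ (θ + e)) := mul_le_mul_of_nonneg_left h1 (abs_nonneg C)
      _ = _ := by ring
  have hexp : T * T ^ e ≤ T ^ (θ + ε) := by
    rw [← rpow_one_add' hT0.le (by linarith)]
    exact rpow_le_rpow_of_exponent_le hT (by rw [he]; linarith)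
  have hexp2 : T ^ e * T ^ (θ + e) = T ^ (θ + ε) := by
    rw [← rpow_add hT0]
    congr 1
    rw [he]; ring
  calc ∑ l ∈ F, Z (α * l + β) ^ p ≤ ∑ l ∈ F, ((M + 1) * T ^ e + δ⁻¹ * T ^ e * G l) :=
        Finset.sum_le_sum hone
    _ = F.card * ((M + 1) * T ^ e) + δ⁻¹ * T ^ e * ∑ l ∈ F, G l := by
        rw [Finset.sum_add_distrib, Finset.sum_const, nsmul_eq_mul, Finset.mul_sum]
    _ ≤ (1 / α + 1) * T * ((M + 1) * T ^ e) +
        δ⁻¹ * T ^ e * (c₂ * (|C| * 2 ^ (θ + e) * T ^ (θ + e))) := by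
        refine add_le_add (mul_le_mul_of_nonneg_right hcard (by positivity)) ?_
        refine mul_le_mul_of_nonneg_left ?_ (by positivity)
        exact hsumG.trans (mul_le_mul_of_nonneg_left hint hc20.le)
    _ = (1 / α + 1) * (M + 1) * (T * T ^ e) +
        δ⁻¹ * c₂ * |C| * 2 ^ (θ + e) * (T ^ e * T ^ (θ + e)) := by ring
    _ ≤ (1 / α + 1) * (M + 1) * T ^ (θ + ε) + δ⁻¹ * c₂ * |C| * 2 ^ (θ + e) * T ^ (θ + ε) := by
        rw [hexp2]
        refine add_le_add (mul_le_mul_of_nonneg_left hexp (by positivity)) le_rfl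
    _ = _ := by ring

end Pool.Agent.R509.MA
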