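import Mathlib
import Pool.Agent.R509.MA.Main

/-!
If the moment does not have the exponent, the discrete moments along almost all dilations do not.
-/

set_option autoImplicit false

open MeasureTheory Filter Topology Set Real

namespace Pool.Agent.R509.MA

variable {Z : ℝ → ℝ}

open Classical in
/-- the large cells of a bad scale -/
lemma scale {f : ℝ → ℝ} (hf0 : ∀ t, 0 ≤ f t) {t : ℕ → ℝ}
    (ht : ∀ j : ℕ, (j : ℝ) ≤ t j ∧ t j ≤ j + 1) {U e s : ℝ} (hU : 1 ≤ U) (he : 0 < e) (hs : 1 + e ≤ s)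
    {k : ℝ} (hk : 2 * (3 * 3 ^ e) ≤ k)
    (h : k * U ^ s ≤ ∑ j ∈ Finset.Ico ⌊U⌋₊ (⌊2 * U⌋₊ + 1), f (t j)) :
    (∀ j ∈ Finset.Ico ⌊U⌋₊ (⌊2 * U⌋₊ + 1), U - 1 ≤ t j ∧ 1 ≤ t j ∧ t j ≤ 3 * U) ∧
    1 / (2 * 3 ^ e) * (k * U ^ (s - e)) ≤
      ∑ j ∈ (Finset.Ico ⌊U⌋₊ (⌊2 * U⌋₊ + 1)).filter (fun j => t j ^ e < f (t j)),
        f (t j) * t j ^ (-e) := by
  set J₀ : Finset ℕ := Finset.Ico ⌊U⌋₊ (⌊2 * U⌋₊ + 1) with hJ₀
  have hU0 : 0 < U := by linarith
  have h3e : (0 : ℝ) < 3 ^ e := by positivity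
  have hfl : (1 : ℝ) ≤ (⌊U⌋₊ : ℝ) := by
    have : 1 ≤ ⌊U⌋₊ := Nat.le_floor (by push_cast; exact hU)
    exact_mod_cast this
  have hfl2 : U - 1 < (⌊U⌋₊ : ℝ) := by linarith [Nat.lt_floor_add_one U]
  have hfl3 : (⌊2 * U⌋₊ : ℝ) ≤ 2 * U := Nat.floor_le (by linarith)
  have hcell : ∀ j ∈ J₀, U - 1 ≤ t j ∧ 1 ≤ t j ∧ t j ≤ 3 * U := by
    intro j hj
    rw [hJ₀, Finset.mem_Ico] at hj
    have h1 : (⌊U⌋₊ : ℝ) ≤ j := by exact_mod_cast hj.1
    have h2 : (j : ℝ) ≤ ⌊2 * U⌋₊ := by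
      have : j ≤ ⌊2 * U⌋₊ := by omega
      exact_mod_cast this
    obtain ⟨h3, h4⟩ := ht j
    exact ⟨by linarith, by linarith, by linarith⟩
  refine ⟨hcell, ?_⟩
  have hcard : (J₀.card : ℝ) ≤ 3 * U := by
    rw [hJ₀, Nat.card_Ico]
    have h1 : ⌊U⌋₊ ≤ ⌊2 * U⌋₊ + 1 := (Nat.floor_mono (by linarith)).trans (Nat.le_succ _)
    rw [Nat.cast_sub h1]
    push_cast
    linarith
  have hsplit := Finset.sum_filter_add_sum_filter_not J₀ (fun j => t j ^ e < f (t j))
    (fun j => f (t j))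
  have hsmall : ∑ j ∈ J₀.filter (fun j => ¬ t j ^ e < f (t j)), f (t j) ≤ 3 * 3 ^ e * U ^ s := by
    calc ∑ j ∈ J₀.filter (fun j => ¬ t j ^ e < f (t j)), f (t j)
        ≤ ∑ _j ∈ J₀.filter (fun j => ¬ t j ^ e < f (t j)), (3 * U) ^ e := by
          refine Finset.sum_le_sum fun j hj => ?_
          rw [Finset.mem_filter] at hj
          obtain ⟨h1, h2, h3⟩ := hcell j hj.1
          exact (not_lt.1 hj.2).trans (rpow_le_rpow (by linarith) h3 he.le)
      _ = ((J₀.filter (fun j => ¬ t j ^ e < f (t j))).card : ℝ) * (3 * U) ^ e := by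
          rw [Finset.sum_const, nsmul_eq_mul]
      _ ≤ 3 * U * (3 * U) ^ e := by
          refine mul_le_mul_of_nonneg_right ?_ (rpow_nonneg (by linarith) _)
          refine le_trans ?_ hcard
          exact_mod_cast Finset.card_le_card (Finset.filter_subset _ _)
      _ = 3 * 3 ^ e * (U * U ^ e) := by
          rw [mul_rpow (by norm_num) hU0.le]; ring
      _ ≤ 3 * 3 ^ e * U ^ s := by
          refine mul_le_mul_of_nonneg_left ?_ (by positivity)
          rw [← rpow_one_add' hU0.le (by linarith)]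
          exact rpow_le_rpow_of_exponent_le hU hs
  have hUs : 0 < U ^ s := rpow_pos_of_pos hU0 _
  have h4 : 2 * (3 * 3 ^ e) * U ^ s ≤ k * U ^ s := mul_le_mul_of_nonneg_right hk hUs.le
  have hbig : k / 2 * U ^ s ≤ ∑ j ∈ J₀.filter (fun j => t j ^ e < f (t j)), f (t j) := by
    linarith
  have h5 : ∀ j ∈ J₀.filter (fun j => t j ^ e < f (t j)),
      (3 * U) ^ (-e) * f (t j) ≤ f (t j) * t j ^ (-e) := by
    intro j hj
    rw [Finset.mem_filter] at hj
    obtain ⟨h1, h2, h3⟩ := hcell j hj.1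
    rw [mul_comm]
    refine mul_le_mul_of_nonneg_left ?_ (hf0 _)
    exact rpow_le_rpow_of_nonpos (by linarith) h3 (by linarith)
  have h6 := Finset.sum_le_sum h5
  rw [← Finset.mul_sum] at h6
  refine le_trans ?_ h6
  have h7 : (3 * U) ^ (-e) * (k / 2 * U ^ s) ≤
      (3 * U) ^ (-e) * ∑ j ∈ J₀.filter (fun j => t j ^ e < f (t j)), f (t j) :=
    mul_le_mul_of_nonneg_left hbig (rpow_nonneg (by linarith) _)
  refine le_trans (le_of_eq ?_) h7
  rw [mul_rpow (by norm_num) hU0.le, sub_eq_add_neg, rpow_add hU0, rpow_neg (by norm_num : (0:ℝ) ≤ 3)]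
  field_simp

open Classical in
theorem ae_fail (H : Per Z) {p θ : ℝ} (hp : 0 < p) (hθ : 1 ≤ θ) {Λ : Set ℝ} {c : ℝ} (hc : 0 < c)
    (hΛ : Pool.Agent.R306.ThickWith c Λ) (hsep : ∀ l ∈ Λ, ∀ l' ∈ Λ, l ≠ l' → 1 ≤ |l - l'|) (β : ℝ)
    (h : ¬ Moment Z p θ) : ∀ᵐ α : ℝ, 0 < α → ¬ Disc Z Λ α β p θ := by
  unfold Moment at h
  push Not at h
  obtain ⟨ε, hε, h⟩ := h
  have hf := H.contp hp
  set f : ℝ → ℝ := fun t => Z t ^ p with hfd
  have hf0 : ∀ t, 0 ≤ f t := fun t => rpow_nonneg (H.nonneg t) _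
  have hii : ∀ a b : ℝ, IntervalIntegrable f volume a b := fun a b => hf.intervalIntegrable a b
  set s : ℝ := θ + ε with hs
  have hbad : ∀ k : ℕ, ∃ U : ℝ, 1 ≤ U ∧ k * U ^ s < ∫ t in U..(2 * U), f t := by
    intro k
    by_contra hcon
    push Not at hcon
    obtain ⟨C, hC⟩ := dyadic hf hf0 (s := s) (C₀ := k) (by rw [hs]; linarith) hcon
    obtain ⟨T, hT, h1⟩ := h C
    exact absurd (hC T hT) (not_le.2 h1)
  choose U hU1 hU2 using hbad
  have hUlim : ∀ R : ℝ, ∃ k₀ : ℕ, ∀ k : ℕ, k₀ ≤ k → R ≤ U k := by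
    intro R
    refine ⟨⌈∫ t in (0 : ℝ)..(2 * R), f t⌉₊, fun k hk => ?_⟩
    by_contra hcon
    push Not at hcon
    have h1 := hU2 k
    have hk1 := hU1 k
    have h2 : ∫ t in (U k)..(2 * U k), f t ≤ ∫ t in (0 : ℝ)..(2 * R), f t :=
      intervalIntegral.integral_mono_interval (by linarith) (by linarith) (by linarith)
        (Eventually.of_forall fun t => hf0 t) (hii _ _)
    have h3 : (1 : ℝ) ≤ U k ^ s := one_le_rpow hk1 (by rw [hs]; linarith)
    have h4 : (k : ℝ) * 1 ≤ k * U k ^ s := mul_le_mul_of_nonneg_left h3 (Nat.cast_nonneg k)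
    have h5 : (∫ t in (0 : ℝ)..(2 * R), f t) ≤ k := by
      refine (Nat.le_ceil _).trans ?_
      exact_mod_cast hk
    linarith
  set e : ℝ := ε / 4 with he
  have he0 : 0 < e := by rw [he]; linarith
  obtain ⟨δ, hδ, T₀, hT₀, hgood⟩ := H.grid hp he0
  obtain ⟨t, ht, hcells⟩ := cells hf hf0
  have h3e : (0 : ℝ) < 3 ^ e := by positivity
  set Hit : ℝ → ℕ → ℝ → Prop := fun η k α => ∃ F : Finset ℝ,
    (∀ l ∈ F, l ∈ Λ ∧ 0 ≤ α * l + β ∧ α * l + β ≤ 4 * U k) ∧
      η * (k * U k ^ (s - e)) ≤ ∑ l ∈ F, f (α * l + β) with hHit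
  have hae := ae_frequently (Hit := Hit) (a := c * δ / 32 * (1 / (2 * 3 ^ e)))
    (b := min (c * δ) 1 / 4) (by
      rintro η η' k α h0 h1 ⟨F, hF, h2⟩
      refine ⟨F, hF, le_trans ?_ h2⟩
      refine mul_le_mul_of_nonneg_right h1 ?_
      exact mul_nonneg (Nat.cast_nonneg k) (rpow_nonneg (by linarith [hU1 k]) _))
    (by positivity) (by positivity) (by
      intro x r hx0 hr hrx
      obtain ⟨Y, hY⟩ := hits hc hΛ hsep β hx0 hr hrx hδ f hf0
      obtain ⟨k₁, hk₁⟩ := hUlim (max (Y + 1) (max (T₀ + 1) 2))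
      refine ⟨max k₁ ⌈(2 : ℝ) * (3 * (3 : ℝ) ^ e)⌉₊, fun k hk => ?_⟩
      have hUk := hk₁ k ((le_max_left _ _).trans hk)
      have u1 : Y + 1 ≤ U k := (le_max_left _ _).trans hUk
      have u2 : T₀ + 1 ≤ U k := ((le_max_left _ _).trans (le_max_right _ _)).trans hUk
      have u3 : 2 ≤ U k := ((le_max_right _ _).trans (le_max_right _ _)).trans hUk
      have hkk : 2 * (3 * 3 ^ e) ≤ (k : ℝ) := by
        refine (Nat.le_ceil _).trans ?_
        exact_mod_cast (le_max_right _ _).trans hk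
      obtain ⟨hcell, hsum⟩ := scale hf0 ht (hU1 k) he0 (s := s) (by rw [hs, he]; linarith) hkk
        ((hU2 k).le.trans (hcells (U k) (hU1 k)))
      set J : Finset ℕ := (Finset.Ico ⌊U k⌋₊ (⌊2 * U k⌋₊ + 1)).filter
        (fun j => t j ^ e < f (t j)) with hJ
      obtain ⟨V, hVm, hVs, hVF, hVv⟩ := hY J t (fun j => f (t j) * t j ^ (-e))
        (fun j => {y : ℝ | |y - t j| ≤ 1 ∧ f (t j) * t j ^ (-e) ≤ f y}) (by
          intro j hj
          rw [hJ, Finset.mem_filter] at hj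
          obtain ⟨c1, c2, c3⟩ := hcell j hj.1
          exact ⟨by linarith, (ht j).1, (ht j).2,
            mul_nonneg (hf0 _) (rpow_nonneg (by linarith) _)⟩) (by
          intro j hj
          rw [hJ, Finset.mem_filter] at hj
          obtain ⟨c1, c2, c3⟩ := hcell j hj.1
          refine ⟨?_, fun y hy => hy, ?_⟩
          · have h01 : IsClosed {y : ℝ | |y - t j| ≤ 1} :=
              isClosed_le (f := fun y : ℝ => |y - t j|) (by fun_prop) continuous_const
            exact (h01.inter (isClosed_le (f := fun _ : ℝ => f (t j) * t j ^ (-e)) continuous_const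
              hf)).measurableSet
          · rcases hgood (t j) (by linarith) with h1 | h1
            · exact absurd hj.2 (not_lt.2 h1)
            · exact h1)
      refine ⟨V, hVm, hVs, fun α hα => ?_, hVv⟩
      obtain ⟨F, hF1, hF2⟩ := hVF α hα
      refine ⟨F, fun l hl => ?_, ?_⟩
      · obtain ⟨hlΛ, j, hj, hlj⟩ := hF1 l hl
        rw [hJ, Finset.mem_filter] at hj
        obtain ⟨c1, c2, c3⟩ := hcell j hj.1
        have := abs_le.1 hlj
        exact ⟨hlΛ, by linarith, by linarith⟩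
      · refine le_trans ?_ hF2
        calc c * δ / 32 * (1 / (2 * 3 ^ e)) / x * (k * U k ^ (s - e))
            = c * δ / 32 / x * (1 / (2 * 3 ^ e) * (k * U k ^ (s - e))) := by ring
          _ ≤ _ := mul_le_mul_of_nonneg_left hsum (by positivity))
  filter_upwards [hae] with α hα hα0 hD
  obtain ⟨η, hη, hfreq⟩ := hα hα0
  obtain ⟨C, hC⟩ := hD (ε / 2) (by linarith)
  set q : ℝ := θ + ε / 2 with hq
  have hev : ∀ᶠ k : ℕ in atTop, |C| * 4 ^ q / η < k := by
    obtain ⟨n, hn⟩ := exists_nat_gt (|C| * 4 ^ q / η)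
    filter_upwards [eventually_ge_atTop n] with k hk
    refine hn.trans_le ?_
    exact_mod_cast hk
  obtain ⟨k, ⟨F, hF, h1⟩, h2⟩ := (hfreq.and_eventually hev).exists
  have hUk := hU1 k
  have hU0 : 0 < U k := by linarith
  have h3 := hC (4 * U k) (by linarith) F hF
  have h4 : C * (4 * U k) ^ q ≤ |C| * 4 ^ q * U k ^ (s - e) := by
    calc C * (4 * U k) ^ q ≤ |C| * (4 * U k) ^ q :=
          mul_le_mul_of_nonneg_right (le_abs_self C) (rpow_nonneg (by linarith) _)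
      _ = |C| * 4 ^ q * U k ^ q := by rw [mul_rpow (by norm_num) hU0.le]; ring
      _ ≤ _ := by
          refine mul_le_mul_of_nonneg_left ?_ (by positivity)
          exact rpow_le_rpow_of_exponent_le hUk (by rw [hq, hs, he]; linarith)
  have h5 : η * k * U k ^ (s - e) ≤ |C| * 4 ^ q * U k ^ (s - e) := by
    have : η * (k * U k ^ (s - e)) = η * k * U k ^ (s - e) := by ring
    rw [← this]
    exact h1.trans (h3.trans h4)
  have h6 := le_of_mul_le_mul_right h5 (rpow_pos_of_pos hU0 _)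
  rw [div_lt_iff₀ hη] at h2
  linarith

end Pool.Agent.R509.MA
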