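import Mathlib
import Pool.Agent.R509.MA.Fail
import Pool.Agent.H983R4.GL.Z3

/-!
All orders at once, and the zeta function.
-/

set_option autoImplicit false

open MeasureTheory Filter Topology Set Real

namespace Pool.Agent.R509.MA

variable {Z : ℝ → ℝ}

lemma Per.crude0 (H : Per Z) : ∃ C A : ℝ, 1 ≤ C ∧ 0 < A ∧ ∀ T : ℝ, 1 ≤ T → ∀ t, 0 ≤ t → t ≤ T →
    Z t ≤ C * T ^ A := by
  obtain ⟨C, A, hC, hA, hcr⟩ := H.crude
  obtain ⟨M, hM⟩ := (isCompact_Icc (a := (0 : ℝ)) (b := 1)).exists_bound_of_continuousOn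
    H.cont.continuousOn
  refine ⟨max C M, A, le_max_of_le_left hC, hA, fun T hT t ht0 htT => ?_⟩
  have hTA : 1 ≤ T ^ A := one_le_rpow hT hA.le
  have hm : 0 ≤ max C M := by
    have := le_max_left C M
    linarith
  rcases le_total t 1 with h1 | h1
  · have h2 := hM t ⟨ht0, h1⟩
    rw [norm_eq_abs, abs_of_nonneg (H.nonneg t)] at h2
    have h3 := le_max_right C M
    nlinarith
  · calc Z t ≤ C * t ^ A := hcr t h1
      _ ≤ max C M * T ^ A := mul_le_mul (le_max_left _ _) (rpow_le_rpow (by linarith) htT hA.le)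
          (rpow_nonneg (by linarith) _) hm

theorem ae_all (H : Per Z) {Λ : Set ℝ} {c : ℝ} (hc : 0 < c)
    (hΛ : Pool.Agent.R306.ThickWith c Λ) (hsep : ∀ l ∈ Λ, ∀ l' ∈ Λ, l ≠ l' → 1 ≤ |l - l'|) (β : ℝ) :
    ∀ᵐ α : ℝ, 0 < α → ∀ p : ℝ, 0 < p → ∀ θ : ℝ, 1 ≤ θ →
      (Disc Z Λ α β p θ ↔ Moment Z p θ) := by
  have key : ∀ᵐ α : ℝ, ∀ p θ : ℚ, (0 : ℝ) < p → (1 : ℝ) ≤ θ → ¬ Moment Z p θ → 0 < α →
      ¬ Disc Z Λ α β p θ := by
    rw [ae_all_iff]; intro p
    rw [ae_all_iff]; intro θ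
    by_cases h : (0 : ℝ) < p ∧ (1 : ℝ) ≤ θ ∧ ¬ Moment Z p θ
    · filter_upwards [ae_fail H h.1 h.2.1 hc hΛ hsep β h.2.2] with α hα _ _ _
      exact hα
    · exact Eventually.of_forall fun α h1 h2 h3 => absurd ⟨h1, h2, h3⟩ h
  filter_upwards [key] with α hα hα0 p hp θ hθ
  refine ⟨fun hD ε hε => ?_, disc_of_moment H hp hθ hsep hα0 β⟩
  obtain ⟨C, A, hC, hA, hcr⟩ := H.crude0
  obtain ⟨p', hp1, hp2⟩ := exists_rat_btwn (show p < p + ε / (4 * A) by
    have : 0 < ε / (4 * A) := by positivity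
    linarith)
  obtain ⟨θ', hθ1, hθ2⟩ := exists_rat_btwn (show θ + ε / 4 < θ + ε / 2 by linarith)
  have hp0 : (0 : ℝ) < p' := hp.trans hp1
  have hD' : Disc Z Λ α β p' θ' := by
    intro ε' hε'
    obtain ⟨C₂, hC₂⟩ := hD ε' hε'
    refine ⟨C ^ ((p' : ℝ) - p) * |C₂|, fun T hT F hF => ?_⟩
    have hT0 : 0 < T := by linarith
    have h1 : ∀ l ∈ F, Z (α * l + β) ^ (p' : ℝ) ≤
        C ^ ((p' : ℝ) - p) * T ^ (ε / 4) * Z (α * l + β) ^ p := by
      intro l hl
      obtain ⟨-, h0, hTl⟩ := hF l hl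
      have h2 := hcr T hT _ h0 hTl
      have hZ0 := H.nonneg (α * l + β)
      have e1 : Z (α * l + β) ^ (p' : ℝ) = Z (α * l + β) ^ ((p' : ℝ) - p) * Z (α * l + β) ^ p := by
        rw [← rpow_add_of_nonneg hZ0 (by linarith) hp.le]
        congr 1; ring
      rw [e1]
      refine mul_le_mul_of_nonneg_right ?_ (rpow_nonneg hZ0 _)
      calc Z (α * l + β) ^ ((p' : ℝ) - p) ≤ (C * T ^ A) ^ ((p' : ℝ) - p) :=
            rpow_le_rpow hZ0 h2 (by linarith)
        _ = C ^ ((p' : ℝ) - p) * T ^ (A * ((p' : ℝ) - p)) := by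
            rw [mul_rpow (by linarith) (rpow_nonneg hT0.le _), ← rpow_mul hT0.le]
        _ ≤ _ := by
            refine mul_le_mul_of_nonneg_left ?_ (rpow_nonneg (by linarith) _)
            refine rpow_le_rpow_of_exponent_le hT ?_
            have h3 : (p' : ℝ) - p ≤ ε / (4 * A) := by linarith
            have h4 := mul_le_mul_of_nonneg_left h3 hA.le
            refine h4.trans (le_of_eq ?_)
            field_simp
    calc ∑ l ∈ F, Z (α * l + β) ^ (p' : ℝ)
        ≤ ∑ l ∈ F, C ^ ((p' : ℝ) - p) * T ^ (ε / 4) * Z (α * l + β) ^ p := Finset.sum_le_sum h1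
      _ = C ^ ((p' : ℝ) - p) * T ^ (ε / 4) * ∑ l ∈ F, Z (α * l + β) ^ p := by rw [Finset.mul_sum]
      _ ≤ C ^ ((p' : ℝ) - p) * T ^ (ε / 4) * (|C₂| * T ^ (θ + ε')) := by
          refine mul_le_mul_of_nonneg_left ?_ (mul_nonneg (rpow_nonneg (by linarith) _)
            (rpow_nonneg hT0.le _))
          refine (hC₂ T hT F hF).trans ?_
          exact mul_le_mul_of_nonneg_right (le_abs_self _) (rpow_nonneg hT0.le _)
      _ = C ^ ((p' : ℝ) - p) * |C₂| * (T ^ (ε / 4) * T ^ (θ + ε')) := by ring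
      _ ≤ _ := by
          refine mul_le_mul_of_nonneg_left ?_ (mul_nonneg (rpow_nonneg (by linarith) _)
            (abs_nonneg _))
          rw [← rpow_add hT0]
          exact rpow_le_rpow_of_exponent_le hT (by linarith)
  have hM : Moment Z p' θ' := by
    by_contra hcon
    exact hα p' θ' hp0 (by linarith) hcon hα0 hD'
  obtain ⟨C₃, hC₃⟩ := hM (ε / 2) (by linarith)
  refine ⟨1 + |C₃|, fun T hT => ?_⟩
  have hT0 : 0 < T := by linarith
  have hc1 := H.contp hp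
  have hc2 := H.contp hp0
  have h1 : ∫ t in (0 : ℝ)..T, Z t ^ p ≤ ∫ t in (0 : ℝ)..T, (1 + Z t ^ (p' : ℝ)) := by
    refine intervalIntegral.integral_mono_on hT0.le (hc1.intervalIntegrable _ _)
      ((continuous_const.add hc2).intervalIntegrable _ _) fun t _ => ?_
    have hZ0 := H.nonneg t
    rcases le_total (Z t) 1 with h2 | h2
    · have h3 : Z t ^ p ≤ 1 := rpow_le_one hZ0 h2 hp.le
      have h4 : 0 ≤ Z t ^ (p' : ℝ) := rpow_nonneg hZ0 _
      linarith
    · have h3 : Z t ^ p ≤ Z t ^ (p' : ℝ) := rpow_le_rpow_of_exponent_le h2 hp1.le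
      linarith
  rw [intervalIntegral.integral_add (continuous_const.intervalIntegrable _ _)
    (hc2.intervalIntegrable _ _), intervalIntegral.integral_const, smul_eq_mul, mul_one, sub_zero] at h1
  have h2 : T ≤ T ^ (θ + ε) := by
    conv_lhs => rw [← rpow_one T]
    exact rpow_le_rpow_of_exponent_le hT (by linarith)
  have h3 : C₃ * T ^ ((θ' : ℝ) + ε / 2) ≤ |C₃| * T ^ (θ + ε) := by
    refine mul_le_mul (le_abs_self _) ?_ (rpow_nonneg hT0.le _) (abs_nonneg _)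
    exact rpow_le_rpow_of_exponent_le hT (by linarith)
  have h4 := hC₃ T hT
  linarith

open Pool.Agent.H983R4.LH in
/-- the zeta function -/
theorem per_zeta : Per fun t : ℝ => ‖riemannZeta (1 / 2 + t * Complex.I)‖ where
  cont := zeta_line_cont.norm
  nonneg := fun t => norm_nonneg _
  crude := by
    obtain ⟨C, hC⟩ := Pool.Agent.H983R4.GL.Z.adm_three 1 one_pos
    refine ⟨max 1 (|C| * 2 ^ (3 + 1 : ℝ)), 3 + 1, le_max_left _ _, by norm_num, fun t ht => ?_⟩
    have ht0 : 0 < t := by linarith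
    calc ‖riemannZeta (1 / 2 + t * Complex.I)‖ ≤ C * (1 + |t|) ^ (3 + 1 : ℝ) := hC t
      _ ≤ |C| * (2 * t) ^ (3 + 1 : ℝ) := by
          refine mul_le_mul (le_abs_self C) ?_ (rpow_nonneg (by positivity) _) (abs_nonneg C)
          refine rpow_le_rpow (by positivity) ?_ (by norm_num)
          rw [abs_of_pos ht0]; linarith
      _ = |C| * 2 ^ (3 + 1 : ℝ) * t ^ (3 + 1 : ℝ) := by
          rw [mul_rpow (by norm_num) ht0.le]; ring
      _ ≤ _ := mul_le_mul_of_nonneg_right (le_max_right _ _) (rpow_nonneg ht0.le _)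
  persist := by
    intro κ μ hκ hμ
    obtain ⟨δ, hδ, T₀, hT₀, h⟩ := main_local hκ hμ
    refine ⟨δ, hδ, T₀, by linarith, fun T hT hz => ?_⟩
    have h1 := h T hT 1 one_pos le_rfl hz
    rw [mul_one] at h1
    exact h1.le

end Pool.Agent.R509.MA
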